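import Pool.Agent.MP_181731_al.Goldie

namespace Pool.Agent.Results.MP_181731_al.AutLiftEndLift

open Pool.Agent.MP_181731_al

universe u v w

/-- Over a non-primitive Dedekind prime ring every automorphism-liftable right module is
endomorphism-liftable. -/
theorem result {A : Type u} {Q : Type w} [Ring A] [Ring Q] (ι : A →+* Q)
    (hA : IsDedekindPrime ι) (_hleft : ¬ Primitive A) (hright : ¬ Primitive Aᵐᵒᵖ)
    (M : Type v) [AddCommGroup M] [Module Aᵐᵒᵖ M] (hM : AutLiftable Aᵐᵒᵖ M) :
    EndLiftable Aᵐᵒᵖ M :=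
  have := (hA.setup hright).good
  hM.endLiftable

end Pool.Agent.Results.MP_181731_al.AutLiftEndLift
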